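import Pool.Agent.R549.BD.L1
import Pool.Agent.R549.BD.L2
import Pool.Agent.R549.BD.L3
import Pool.Agent.R549.BD.P0
import Pool.Agent.R564.Dig.Main

/-!
# MP_b8e903_lc: a negative answer to Q1

There are a standard Borel space `V` and a locally countable Borel directed graph `D` on `V` with
Borel chromatic number at most five and out-degree at most two such that no Borel set `M` with
`ρ(x, M) ≤ 1` for all `x` induces a graph of Borel chromatic number at most two.
-/

set_option autoImplicit false

open Set

namespace Pool.Agent.Results.MP_b8e903_lc.NoBipartiteAbsorbing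

open Pool.Agent.R564.Dig

theorem result :
    ∃ (V : Type) (_ : MeasurableSpace V) (_ : StandardBorelSpace V) (D : BorelDigraph V),
      D.LocallyCountable ∧ D.BorelColorableOn univ 5 ∧ D.OutDegreeLE 2 ∧
      ∀ M : Set V, MeasurableSet M → D.Absorbing M → ¬ D.BorelColorableOn M 2 :=
  ⟨V, inferInstance, inferInstance, DG, DG_locallyCountable, DG_colorable, DG_outdeg,
    fun M hM ha hc =>
      no_absorbing
        (Pool.Agent.R549.BD.P0.main (Pool.Agent.R549.BD.L3.L4 Pool.Agent.R549.BD.L1.main
          Pool.Agent.R549.BD.L2.main)) M hM hc ha⟩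

end Pool.Agent.Results.MP_b8e903_lc.NoBipartiteAbsorbing
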